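import Pool.Agent.Lib.MP_0a5adf_nt.EXR.H89.Full

/-!
Descent of almost all integers under the 3x+1 map, with explicit exponents for the exceptional set.
-/

set_option autoImplicit false

namespace Pool.Agent.Results.MP_0a5adf_nt.ExplicitDescent

open Pool.Agent.Lib.MP_0a5adf_nt

/-- The 3x+1 map on the integers: `x / 2` for even `x` and `(3 x + 1) / 2` for odd `x`. -/
def T (x : ℤ) : ℤ := if x % 2 = 0 then x / 2 else (3 * x + 1) / 2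

/-- For some `k ≤ (1 + θ / 3) log_2 |x|`, `|T^k(x)| < |x| ^ θ`, and `|T^j(x)| ≤ |x| ^ β` for all
`j ≤ k`. -/
def Good (θ β : ℝ) (x : ℤ) : Prop :=
  ∃ k : ℕ, (k : ℝ) ≤ (1 + θ / 3) * Real.logb 2 |(x : ℝ)| ∧
    |((T^[k] x : ℤ) : ℝ)| < |(x : ℝ)| ^ θ ∧ ∀ j ≤ k, |((T^[j] x : ℤ) : ℝ)| ≤ |(x : ℝ)| ^ β

/-- The exponent `E(θ, lam)`. -/
noncomputable def E (θ lam : ℝ) : ℝ :=
  (1 - θ) / 4 - 4 * θ / 3 * lam +
    (3 + θ) / 12 * Real.logb 2 (1 + 6 * (9 : ℝ) ^ lam + (81 : ℝ) ^ lam)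

/-- The general bound, and the case `θ = 1`, `lam = 1 / 3` with numbers. -/
theorem result :
    (∀ θ lam ε : ℝ, 3 / 4 ≤ θ → θ ≤ 1 → 0 ≤ lam → lam ≤ 1 / 3 → 0 < ε →
      ∃ C : ℝ, ∀ X : ℝ, 1 ≤ X →
        ({x : ℤ | |(x : ℝ)| ≤ X ∧ ¬ Good θ (2 - E θ lam + θ / 5 + ε) x}.ncard : ℝ) ≤
          C * X ^ (E θ lam + ε)) ∧
    ∃ C : ℝ, ∀ X : ℝ, 1 ≤ X →
      ({x : ℤ | |(x : ℝ)| ≤ X ∧ ¬ Good 1 1.26 x}.ncard : ℝ) ≤ C * X ^ (0.9404 : ℝ) :=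
  ⟨EXR.Full.final_thm, EXR.Full.numeric⟩

end Pool.Agent.Results.MP_0a5adf_nt.ExplicitDescent
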