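import Pool.Agent.Lib.MP_0a5adf_nt.H7.LimitLaw

/-!
3x+1 trajectories in natural density: the limit law of `t(n) / n`, the law of the excursions before
the trajectory falls, and the equidistribution of the invariant sets.
-/

set_option autoImplicit false

namespace Pool.Agent.Results.MP_0a5adf_nt.LimitLaw

open Filter

/-- The accelerated 3x+1 map: `n / 2` for even `n` and `(3 n + 1) / 2` for odd `n`. -/
def T (n : ℕ) : ℕ := if n % 2 = 0 then n / 2 else (3 * n + 1) / 2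

/-- The trajectory of `n` is bounded. -/
def Bounded (n : ℕ) : Prop := ∃ R : ℕ, ∀ k, T^[k] n ≤ R

/-- Some term of the trajectory of `n` is `≥ lam * n`. -/
def Reaches (lam : ℝ) (n : ℕ) : Prop := ∃ k : ℕ, lam * n ≤ (T^[k] n : ℝ)

/-- The trajectory of `n` falls below `y` before it reaches a value `≥ lam * n`: some term
`T^k n` is `< y` and the terms before it are `< lam * n`. -/
def FallsBefore (n : ℕ) (y lam : ℝ) : Prop :=
  ∃ k : ℕ, (T^[k] n : ℝ) < y ∧ ∀ j < k, (T^[j] n : ℝ) < lam * n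

/-- The numbers `n` of `[2 ^ L, 2 ^ (L + 1))` whose trajectory does not fall below `y` before it
reaches a value `≥ lam * n`. -/
def Fail (L : ℕ) (y lam : ℝ) : Set ℕ :=
  {n : ℕ | 2 ^ L ≤ n ∧ n < 2 ^ (L + 1) ∧ ¬ FallsBefore n y lam}

/-- For the set `A` of the factors `3 / 2` (the other factors being `1 / 2`), one of the products of
the first `k` factors, `0 ≤ k ≤ K`, is at least `lam`. -/
def High (K : ℕ) (lam : ℝ) (A : Finset ℕ) : Prop :=
  ∃ k ≤ K, lam ≤ (3 : ℝ) ^ (A.filter (· < k)).card / 2 ^ k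

open Classical in
/-- The probability that one of the products of the first `k` factors, `k ≥ 0`, is at least `lam`, for
independent factors equal to `3 / 2` or `1 / 2` with probability `1 / 2`: the supremum over `K` of the
proportion of the subsets `A` of `{0, ..., K - 1}` with `High K lam A`. -/
noncomputable def F (lam : ℝ) : ℝ :=
  ⨆ K : ℕ, (((Finset.range K).powerset.filter fun A => High K lam A).card : ℝ) / 2 ^ K

/-- The numbers with the property `P` have natural density `D`. -/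
def HasDensity (P : ℕ → Prop) (D : ℝ) : Prop :=
  Tendsto (fun N : ℕ => ({n : ℕ | n < N ∧ P n}.ncard : ℝ) / N) atTop (nhds D)

/-- There is `c > 0` such that:

(i) every set `S` of positive integers with `n ∈ S ↔ T n ∈ S` has a natural density `D`, with
`D ≥ c / n` for `n ∈ S` and `D ≤ 1 - c / n` for `n ∉ S`; the part of `S` in each residue class modulo
`2 ^ j * 3 ^ k` has natural density `D / (2 ^ j * 3 ^ k)`; for `lam ≥ 1`, `g n → ∞`, `g n / n → 0`, in
each class modulo `3 ^ k`, the elements `n` of `S` whose trajectory does not fall below `g n` before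
reaching `lam * n` have natural density `D / 3 ^ k * F lam`, and so have the elements whose trajectory
reaches `lam * n`, if all the trajectories of the elements of `S` are bounded; moreover
`c / lam ≤ F lam ≤ 1 / lam` for `lam ≥ 1`;

(ii) the numbers with a bounded trajectory have a natural density `D > 0`; for every `lam ≥ 1` the
`n` whose trajectory reaches `lam * n` have natural density `1 - D + D * F lam`; for every `g n → ∞`
the `n` whose trajectory stays `≤ g n * n` have natural density `D`; `D = 1` if and only if every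
trajectory is bounded;

(iii) let `0 < δ < 3 / 2 - log_2 (1 + √3) = 0.0500...`; there are `c, C > 0` such that for all
`L ≥ 1`, `y ≥ 1`, `lam ≥ 1`, at most `(2 / lam + C / y ^ c) * 2 ^ L` of the `2 ^ L` numbers `n` of
`[2 ^ L, 2 ^ (L + 1))` do not fall below `y` before reaching `lam * n`; for `y ≤ 2 ^ (L / 2)` also at
most `(2 / lam + C * L / y ^ δ) * 2 ^ L` and, if `lam ≤ 2 ^ (L / 6)`, at least `c / lam * 2 ^ L`. -/
theorem result :
    (∃ c : ℝ, 0 < c ∧
      (∀ S : Set ℕ, (∀ n, 1 ≤ n → (n ∈ S ↔ T n ∈ S)) →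
        ∃ D : ℝ, (∀ n, 1 ≤ n → n ∈ S → c / n ≤ D) ∧ (∀ n, 1 ≤ n → n ∉ S → D ≤ 1 - c / n) ∧
          (∀ j k a : ℕ, HasDensity (fun n => n ∈ S ∧ n ≡ a [MOD 2 ^ j * 3 ^ k])
            (D / (2 ^ j * 3 ^ k))) ∧
          ∀ (k a : ℕ) (lam : ℝ), 1 ≤ lam →
            (∀ g : ℕ → ℝ, Tendsto g atTop atTop → Tendsto (fun n : ℕ => g n / n) atTop (nhds 0) →
              HasDensity (fun n => (n ∈ S ∧ n ≡ a [MOD 3 ^ k]) ∧ ¬ FallsBefore n (g n) lam)
                (D / 3 ^ k * F lam)) ∧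
            ((∀ n ∈ S, Bounded n) →
              HasDensity (fun n => (n ∈ S ∧ n ≡ a [MOD 3 ^ k]) ∧ Reaches lam n)
                (D / 3 ^ k * F lam))) ∧
      ∀ lam : ℝ, 1 ≤ lam → c / lam ≤ F lam ∧ F lam ≤ 1 / lam) ∧
    (∃ D : ℝ, 0 < D ∧ HasDensity Bounded D ∧
      (∀ lam : ℝ, 1 ≤ lam → HasDensity (Reaches lam) (1 - D + D * F lam)) ∧
      (∀ g : ℕ → ℝ, Tendsto g atTop atTop →
        HasDensity (fun n => ∀ k, (T^[k] n : ℝ) ≤ g n * n) D) ∧
      (D = 1 ↔ ∀ n, Bounded n)) ∧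
    (∀ δ : ℝ, 0 < δ → δ < 3 / 2 - Real.logb 2 (1 + √3) →
      ∃ c C : ℝ, 0 < c ∧ 0 < C ∧ ∀ (L : ℕ) (y lam : ℝ), 1 ≤ L → 1 ≤ y → 1 ≤ lam →
        ((Fail L y lam).ncard : ℝ) ≤ (2 / lam + C / y ^ c) * 2 ^ L ∧
        (y ^ 2 ≤ 2 ^ L →
          ((Fail L y lam).ncard : ℝ) ≤ (2 / lam + C * L / y ^ δ) * 2 ^ L ∧
          (lam ≤ (2 : ℝ) ^ ((L : ℝ) / 6) → c / lam * 2 ^ L ≤ ((Fail L y lam).ncard : ℝ)))) := by
  obtain ⟨c₁, hc₁, h1, h2⟩ := Pool.Agent.Lib.MP_0a5adf_nt.H7.limit_law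
  obtain ⟨c₂, hc₂, h3⟩ := Pool.Agent.Lib.MP_0a5adf_nt.XT.le_F
  refine ⟨⟨min c₁ c₂, lt_min hc₁ hc₂, ?_, ?_⟩, h2, ?_⟩
  · intro S hS
    obtain ⟨D, a1, a2, a3, a4⟩ := h1 S hS
    have e1 : min c₁ c₂ ≤ c₁ := min_le_left _ _
    refine ⟨D, fun n hn hnS => ?_, fun n hn hnS => ?_, a3, a4⟩
    · exact (div_le_div_of_nonneg_right e1 (Nat.cast_nonneg n)).trans (a1 n hn hnS)
    · have := div_le_div_of_nonneg_right e1 (Nat.cast_nonneg (α := ℝ) n)
      linarith [a2 n hn hnS]
  · intro lam hlam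
    refine ⟨?_, Pool.Agent.Lib.MP_0a5adf_nt.XT.F_le lam (by linarith)⟩
    exact (div_le_div_of_nonneg_right (min_le_right _ _) (by linarith)).trans (h3 lam hlam)
  · intro δ hδ0 hδ
    obtain ⟨c, C, hc, hC, h⟩ := Pool.Agent.Lib.MP_0a5adf_nt.H26.blocks
      (Pool.Agent.Lib.MP_0a5adf_nt.TP.finalT true) δ hδ0 hδ
    refine ⟨c, C, hc, hC, fun L y lam h1 h2 h3 => ?_⟩
    have e : Fail L y lam = Pool.Agent.Lib.MP_0a5adf_nt.TP.Fail true L y lam :=
      Pool.Agent.Lib.MP_0a5adf_nt.H7.fail_eq L y lam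
    rw [e]
    exact h L y lam h1 h2 h3

end Pool.Agent.Results.MP_0a5adf_nt.LimitLaw
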