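import Pool.Agent.Lib.MP_0a5adf_nt.H57.Par
import Pool.Agent.Lib.MP_0a5adf_nt.H26.Law

/-!
3x+1: every trajectory is thin, the maximum excursion of `n` is asymptotically determined by `n` and
the parity word of its trajectory, and `3^(o_j) / 2^j` tends to `0` or to infinity.
-/

set_option autoImplicit false

namespace Pool.Agent.Results.MP_0a5adf_nt.ParityExcursion

open scoped ENNReal

open Filter (Tendsto atTop)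

/-- The accelerated 3x+1 map: `n / 2` for even `n` and `(3 n + 1) / 2` for odd `n`. -/
def T (n : ℕ) : ℕ := if n % 2 = 0 then n / 2 else (3 * n + 1) / 2

/-- The number of odd terms among `n, T n, ..., T^(j-1) n`. -/
def o (n j : ℕ) : ℕ := ((Finset.range j).filter fun i => T^[i] n % 2 = 1).card

/-- The maximum excursion of `n`, the supremum of the `T^k n`, in `[0, ∞]`. -/
noncomputable def t (n : ℕ) : ℝ≥0∞ := ⨆ k : ℕ, (T^[k] n : ℝ≥0∞)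

/-- The supremum of the `n * 3 ^ o n j / 2 ^ j`, in `[0, ∞]`. -/
noncomputable def e (n : ℕ) : ℝ≥0∞ := ⨆ j : ℕ, (n : ℝ≥0∞) * 3 ^ o n j / 2 ^ j

theorem T_eq : T = Pool.Agent.Lib.MP_0a5adf_nt.H57.Par.T := rfl

theorem o_eq : o = Pool.Agent.Lib.MP_0a5adf_nt.H57.Par.o := rfl

theorem t_eq : t = Pool.Agent.Lib.MP_0a5adf_nt.H57.Par.t := rfl

theorem e_eq : e = Pool.Agent.Lib.MP_0a5adf_nt.H57.Par.e := rfl

theorem move {a b c d : ℝ} {j : ℕ} (h : (2 : ℝ) ^ j * a ≤ c * (d * b)) :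
    a ≤ c * (b * d / 2 ^ j) := by
  have h4 : (0 : ℝ) < 2 ^ j := by positivity
  rw [mul_div_assoc', le_div_iff₀ h4]
  linarith

/-- There is a constant `C` such that
(i) every trajectory has at most `C X ^ 0.9404` distinct terms `≤ X`, for all real `X ≥ 1`;
(ii) `n 3^(o_j) / 2^j ≤ T^j n ≤ (1 + C m ^ (-0.0596)) n 3^(o_j) / 2^j` for all `n ≥ 1`, `m ≥ 1` and
`j` such that the terms `n, T n, ..., T^(j-1) n` are distinct and `≥ m`.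
Explicitly, if `n, T n, ..., T^(j-1) n` are distinct then `T^j n ≤ c n 3^(o_j) / 2^j` with
`c = 1.92` if none of these terms is `1`, `c = 1.3` if all of them are `≥ 2^24`, `c = 1.03` if
all of them are `≥ 2^71`, and `c = 1 + 1.6 m ^ (-0.048)` if all of them are `≥ m ≥ 2`;
(iii) `e n ≤ t n ≤ 1.92 * e n` for all `n ≥ 1`; `t n ≤ (1 + 1.6 m ^ (-0.048)) * e n` if `m ≥ 2`
and `t x < n` for all `1 ≤ x < m`; and, for every `ε > 0`, `t n ≤ (1 + ε) * e n` for all large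
`n`.
(iv) For `n ≥ 1`, as `j` tends to infinity, `3^(o_j) / 2^j` tends to `0` if the trajectory of `n` is
bounded; otherwise it tends to infinity and `T^j n / (n 3^(o_j) / 2^j)` to some `R`, `1 ≤ R ≤ 1.92`;
(v) for every real `g`, `t n = O(n ^ (1 + g))` if and only if `3^(o_j(n)) = O(2^j n^g)` for all
`n ≥ 1` and `j`. -/
theorem result :
    (∃ C : ℝ, 0 < C ∧
      (∀ (n : ℕ) (X : ℝ), 1 ≤ X →
        ({y : ℕ | (y : ℝ) ≤ X ∧ ∃ i : ℕ, T^[i] n = y}.ncard : ℝ) ≤ C * X ^ (0.9404 : ℝ)) ∧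
      ∀ (n j : ℕ) (m : ℝ), 1 ≤ n → 1 ≤ m → (∀ a b, a < b → b < j → T^[a] n ≠ T^[b] n) →
        (∀ i < j, m ≤ (T^[i] n : ℝ)) →
        (n : ℝ) * 3 ^ o n j / 2 ^ j ≤ (T^[j] n : ℝ) ∧
        (T^[j] n : ℝ) ≤ (1 + C * m ^ (-0.0596 : ℝ)) * ((n : ℝ) * 3 ^ o n j / 2 ^ j)) ∧
    (∀ n j : ℕ, 1 ≤ n → (∀ a b, a < b → b < j → T^[a] n ≠ T^[b] n) →
      ((∀ i < j, T^[i] n ≠ 1) → (T^[j] n : ℝ) ≤ 1.92 * ((n : ℝ) * 3 ^ o n j / 2 ^ j)) ∧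
      ((∀ i < j, 2 ^ 24 ≤ T^[i] n) → (T^[j] n : ℝ) ≤ 1.3 * ((n : ℝ) * 3 ^ o n j / 2 ^ j)) ∧
      ((∀ i < j, 2 ^ 71 ≤ T^[i] n) → (T^[j] n : ℝ) ≤ 1.03 * ((n : ℝ) * 3 ^ o n j / 2 ^ j)) ∧
      ∀ m : ℝ, 2 ≤ m → (∀ i < j, m ≤ (T^[i] n : ℝ)) →
        (T^[j] n : ℝ) ≤ (1 + 1.6 * m ^ (-0.048 : ℝ)) * ((n : ℝ) * 3 ^ o n j / 2 ^ j)) ∧
    (∀ n : ℕ, 1 ≤ n → e n ≤ t n ∧ t n ≤ ENNReal.ofReal 1.92 * e n ∧
      ∀ m : ℝ, 2 ≤ m → (∀ x : ℕ, 1 ≤ x → (x : ℝ) < m → t x < n) →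
        t n ≤ ENNReal.ofReal (1 + 1.6 * m ^ (-0.048 : ℝ)) * e n) ∧
    (∀ ε : ℝ, 0 < ε → ∃ N : ℕ, ∀ n : ℕ, N ≤ n → t n ≤ ENNReal.ofReal (1 + ε) * e n) ∧
    (∀ n : ℕ, 1 ≤ n →
      ((∃ A : ℝ, ∀ k : ℕ, (T^[k] n : ℝ) ≤ A) →
        Tendsto (fun j : ℕ => (3 : ℝ) ^ o n j / 2 ^ j) atTop (nhds 0)) ∧
      ((¬ ∃ A : ℝ, ∀ k : ℕ, (T^[k] n : ℝ) ≤ A) →
        Tendsto (fun j : ℕ => (3 : ℝ) ^ o n j / 2 ^ j) atTop atTop ∧
        ∃ R : ℝ, 1 ≤ R ∧ R ≤ 1.92 ∧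
          Tendsto (fun j : ℕ => (T^[j] n : ℝ) / ((n : ℝ) * 3 ^ o n j / 2 ^ j)) atTop (nhds R))) ∧
    ∀ g : ℝ, (∃ A : ℝ, ∀ n k : ℕ, 1 ≤ n → (T^[k] n : ℝ) ≤ A * (n : ℝ) ^ (1 + g)) ↔
      ∃ A : ℝ, ∀ n j : ℕ, 1 ≤ n → (3 : ℝ) ^ o n j ≤ A * 2 ^ j * (n : ℝ) ^ g := by
  rw [T_eq, o_eq, t_eq, e_eq]
  obtain ⟨C₁, hC₁, h1⟩ := Pool.Agent.Lib.MP_0a5adf_nt.H57.Par.thinN
  obtain ⟨C₂, hC₂, h2⟩ := Pool.Agent.Lib.MP_0a5adf_nt.H57.Par.upm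
  obtain ⟨C₃, hC₃, h3⟩ := Pool.Agent.Lib.MP_0a5adf_nt.H57.Par.up_all
  refine ⟨⟨C₁ + C₂, by positivity, fun n X hX => ?_, fun n j m hn hm hinj hlow => ⟨?_, ?_⟩⟩,
    fun n j hn hinj => ⟨fun h => ?_, fun h => ?_, fun h => ?_, fun m hm h => ?_⟩,
    fun n hn => ⟨?_, ?_, fun m hm h => ?_⟩, Pool.Agent.Lib.MP_0a5adf_nt.H57.Par.asym,
    fun n hn => ⟨fun h => ?_, fun h => ⟨?_, ?_⟩⟩, fun g => ?_⟩
  · refine (h1 n X hX).trans (mul_le_mul_of_nonneg_right (by linarith) ?_)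
    exact Real.rpow_nonneg (by linarith) _
  · rw [div_le_iff₀ (by positivity)]
    have h := Pool.Agent.Lib.MP_0a5adf_nt.H57.Par.low_real n j
    linarith
  · have h := h2 n j m hn hm hinj hlow
    refine (move h).trans (mul_le_mul_of_nonneg_right ?_ (by positivity))
    have h6 : 0 < m ^ (-0.0596 : ℝ) := Real.rpow_pos_of_pos (by linarith) _
    nlinarith
  · exact move (Pool.Agent.Lib.MP_0a5adf_nt.H26.Exc.all_192 n j hn hinj h)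
  · exact move (Pool.Agent.Lib.MP_0a5adf_nt.H26.Exc.all_24 n j hn hinj h)
  · exact move (Pool.Agent.Lib.MP_0a5adf_nt.H26.Exc.all_71 n j hn hinj h)
  · exact move (Pool.Agent.Lib.MP_0a5adf_nt.H26.Exc.all_tail n j m hn hm hinj h)
  · exact Pool.Agent.Lib.MP_0a5adf_nt.H57.Par.e_le_t n
  · exact Pool.Agent.Lib.MP_0a5adf_nt.H26.Exc.t_le n hn
  · exact Pool.Agent.Lib.MP_0a5adf_nt.H26.Exc.t_le_tail n m hm hn h
  · exact Pool.Agent.Lib.MP_0a5adf_nt.H26.Law.zero_law hn h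
  · exact Pool.Agent.Lib.MP_0a5adf_nt.H26.Law.infty_law hn h
  · exact Pool.Agent.Lib.MP_0a5adf_nt.H26.Law.limit_ratio hn h
  · exact Pool.Agent.Lib.MP_0a5adf_nt.H57.Par.power_iff hC₃ h3 g

end Pool.Agent.Results.MP_0a5adf_nt.ParityExcursion
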