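import Pool.Agent.Lib.MP_0a5adf_nt.WT.Rows
import Pool.Agent.Lib.MP_0a5adf_nt.WT.Div.DivT

/-!
Whole trajectories of the 3x+1 map: every term `m` of the trajectory of a typical `n` has `t(m)` not
much larger than `m`; an integral test and a limit law.
-/

set_option autoImplicit false

namespace Pool.Agent.Results.MP_0a5adf_nt.WholeTrajectories

open Filter

/-- The accelerated 3x+1 map: `n / 2` for even `n` and `(3 n + 1) / 2` for odd `n`. -/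
def T (n : ℕ) : ℕ := if n % 2 = 0 then n / 2 else (3 * n + 1) / 2

/-- The maximum excursion `t(n)`: the supremum of the trajectory of `n`, possibly infinite. -/
noncomputable def t (n : ℕ) : EReal := ⨆ k : ℕ, ((T^[k] n : ℝ) : EReal)

/-- A gauge: a function that is positive and nondecreasing on `[1, ∞)`. -/
def Gauge (f : ℝ → ℝ) : Prop := (∀ x : ℝ, 1 ≤ x → 0 < f x) ∧ ∀ x y : ℝ, 1 ≤ x → x ≤ y → f x ≤ f y

/-- `A(f)`: the `n` such that `t(m) ≤ m f(m)` for all terms `m` of the trajectory of `n`. -/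
def A (f : ℝ → ℝ) : Set ℕ := {n : ℕ | ∀ i : ℕ, t (T^[i] n) ≤ ((T^[i] n * f (T^[i] n) : ℝ) : EReal)}

/-- `B(f, y)`: the `n` that do not fall below `y`, or violate the gauge `f` before they do. -/
def B (f : ℝ → ℝ) (y : ℝ) : Set ℕ :=
  {n : ℕ | (∀ k : ℕ, y ≤ (T^[k] n : ℝ)) ∨ ∃ i j : ℕ, i ≤ j ∧ (∀ k ≤ j, y ≤ (T^[k] n : ℝ)) ∧
    (T^[i] n * f (T^[i] n) : ℝ) ≤ T^[j] n}

/-- The number of the `n ∈ S` with `1 ≤ n ≤ X`. -/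
noncomputable def count (S : Set ℕ) (X : ℝ) : ℝ := ({n : ℕ | n ∈ S ∧ 1 ≤ n ∧ (n : ℝ) ≤ X}.ncard : ℝ)

/-- `S` has the natural density `D`. -/
def HasDensity (S : Set ℕ) (D : ℝ) : Prop := Tendsto (fun X : ℝ => count S X / X) atTop (nhds D)

/-- The tail of the series `∑ 1 / f(2 ^ b)` from `y` on. -/
noncomputable def tail (f : ℝ → ℝ) (y : ℝ) : ℝ := ∑' b : ℕ, (if y ≤ (b : ℝ) then 1 / f (2 ^ b) else 0)

/-- Let `f` be a gauge.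

(i) For every `E : ℕ` there is `C` such that for all gauges `f`, all `l ≥ 1` and `1 ≤ X ≤ 2 ^ K` at most
`C X (l ^ (-E) + ∑_{l ≤ b ≤ K} 1 / f(2 ^ b))` of the `n ≤ X` lie in `B(f, 2 ^ l)`.

(ii) For `κ > 0` there are `c, C > 0` such that for all `X, y ≥ 1` at most `C X / y ^ c` of the `n ≤ X`
lie in `B(x ^ κ, y)`.

(iii) If `∑ 1 / f(2 ^ b) < ∞` then `A(f)` has a natural density `F(f)`, the number of the `n ≤ X` in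
`A(f)` being `F(f) X` up to `C X ((log X) ^ (-1/38) + ∑_{b ≥ (log X) / 4} 1 / f(2 ^ b))`, with `C`
independent of `f`; `F(f) ≤ D` and `F(λ f) → D` for `λ → ∞`, where `D > 0` is the density of the `n` with
bounded trajectory; `F(f) = 1` if and only if `t(m) ≤ m f(m)` for all `m` prime to `3`, and
`F(f) ≤ 1 - c / m` if this fails for `m`. If `∑ 1 / f(2 ^ b) = ∞` then `A(f)` has natural density `0`.

(iv) For `θ > 0`: `t(n) ≤ C n ^ (1 + θ)` for some `C` and all `n ≥ 1` if and only if for some `λ > 0` the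
set `A(λ x ^ θ)` has density `1`. (So if Q1, the case `θ = 1`, fails then for every `C` the `n` with
`t(m) ≤ C m ^ 2` for all terms `m` have a density smaller than `1`.)

(v) There is `c > 0` such that for all `m ≥ 1`, `X ≥ m` at least `c X / m` of the `n ≤ X` have
`t(n) ≥ t(m)`.

(vi) Let `θ > 0`, `0 < δ ≤ 1`. If for some `C`, `K` and all `X ≥ 1` at most `K X ^ (1 - δ)` of the `m` of
`[X, 2 X)` have `t(m) > C m ^ θ`, then `t(n) ≤ C' n ^ (θ / δ)` for some `C'` and all `n ≥ 1`. -/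
theorem result :
    (∀ E : ℕ, ∃ C : ℝ, 0 < C ∧ ∀ (f : ℝ → ℝ) (l K : ℕ) (X : ℝ), Gauge f → 1 ≤ l → 1 ≤ X → X ≤ 2 ^ K →
      count (B f (2 ^ l)) X ≤
        C * X * (1 / (l : ℝ) ^ E + ∑ b ∈ Finset.Icc l K, 1 / f (2 ^ b))) ∧
    (∀ κ : ℝ, 0 < κ → ∃ c C : ℝ, 0 < c ∧ 0 < C ∧ ∀ X y : ℝ, 1 ≤ X → 1 ≤ y →
      count (B (fun x => x ^ κ) y) X ≤ C * X / y ^ c) ∧
    (∃ (c C D : ℝ) (F : (ℝ → ℝ) → ℝ), 0 < c ∧ 0 < D ∧
      HasDensity {n : ℕ | ∃ R : ℕ, ∀ k : ℕ, T^[k] n ≤ R} D ∧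
      ∀ f : ℝ → ℝ, Gauge f → Summable (fun b : ℕ => 1 / f (2 ^ b)) →
        HasDensity (A f) (F f) ∧ F f ≤ D ∧
        (∀ X : ℝ, 2 ≤ X → |count (A f) X - F f * X| ≤
          C * X * (Real.log X ^ (-(1 / 38) : ℝ) + tail f (Real.log X / 4))) ∧
        Tendsto (fun lam : ℝ => F (fun x => lam * f x)) atTop (nhds D) ∧
        (F f = 1 ↔ ∀ m : ℕ, 1 ≤ m → ¬ 3 ∣ m → t m ≤ ((m * f m : ℝ) : EReal)) ∧
        ∀ m : ℕ, 1 ≤ m → ¬ 3 ∣ m → ((m * f m : ℝ) : EReal) < t m → F f ≤ 1 - c / m) ∧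
    (∀ f : ℝ → ℝ, Gauge f → ¬ Summable (fun b : ℕ => 1 / f (2 ^ b)) → HasDensity (A f) 0) ∧
    (∀ θ : ℝ, 0 < θ →
      ((∃ C : ℝ, ∀ n : ℕ, 1 ≤ n → t n ≤ ((C * (n : ℝ) ^ (1 + θ) : ℝ) : EReal)) ↔
        ∃ lam : ℝ, 0 < lam ∧ HasDensity (A (fun x => lam * x ^ θ)) 1)) ∧
    (∃ c : ℝ, 0 < c ∧ ∀ (m : ℕ) (X : ℝ), 1 ≤ m → (m : ℝ) ≤ X →
      c * X / m ≤ ({n : ℕ | 1 ≤ n ∧ (n : ℝ) ≤ X ∧ t m ≤ t n}.ncard : ℝ)) ∧
    (∀ θ δ C K : ℝ, 0 < θ → 0 < δ → δ ≤ 1 →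
      (∀ X : ℕ, 1 ≤ X → ({m : ℕ | X ≤ m ∧ m < 2 * X ∧
        ((C * (m : ℝ) ^ θ : ℝ) : EReal) < t m}.ncard : ℝ) ≤ K * (X : ℝ) ^ (1 - δ)) →
      ∃ C' : ℝ, ∀ n : ℕ, 1 ≤ n → t n ≤ ((C' * (n : ℝ) ^ (θ / δ) : ℝ) : EReal)) := by
  refine ⟨fun E => ?_, Pool.Agent.Lib.MP_0a5adf_nt.WT.partE_i' Pool.Agent.Lib.MP_0a5adf_nt.WT.powT Pool.Agent.Lib.MP_0a5adf_nt.WT.cts, ?_, fun f hf hS => ?_, fun θ hθ => Pool.Agent.Lib.MP_0a5adf_nt.WT.partE_iv Pool.Agent.Lib.MP_0a5adf_nt.WT.lawT Pool.Agent.Lib.MP_0a5adf_nt.WT.iffT θ hθ,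
    Pool.Agent.Lib.MP_0a5adf_nt.WT.part_v, fun θ δ C K hθ hδ hδ1 h => Pool.Agent.Lib.MP_0a5adf_nt.WT.part_vi θ δ C K hθ hδ hδ1 h⟩
  · obtain ⟨C, hC, h⟩ := Pool.Agent.Lib.MP_0a5adf_nt.WT.partE_i Pool.Agent.Lib.MP_0a5adf_nt.WT.upStrongT Pool.Agent.Lib.MP_0a5adf_nt.WT.cts E
    exact ⟨C, hC, fun f l K X hf hl hX hXK => h f l K X ⟨hf.2, hf.1⟩ hl hX hXK⟩
  · obtain ⟨c, C, D, F, hc, hD, hB, h⟩ := Pool.Agent.Lib.MP_0a5adf_nt.WT.partE_ii Pool.Agent.Lib.MP_0a5adf_nt.WT.lawT Pool.Agent.Lib.MP_0a5adf_nt.WT.iffT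
    exact ⟨c, C, D, F, hc, hD, hB, fun f hf hS => h f ⟨hf.2, hf.1⟩ hS⟩
  · have h := Pool.Agent.Lib.MP_0a5adf_nt.WT.Div.divT f ⟨hf.2, hf.1⟩ hS
    rw [← Pool.Agent.Lib.MP_0a5adf_nt.WT.AE_eq] at h
    exact h

end Pool.Agent.Results.MP_0a5adf_nt.WholeTrajectories
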